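import Pool.Agent.H77.EA.Targets2

/-!
# Equivariant Alperin–McKay (MP_657073_al): module QI, inflation of irreducible characters
-/

open scoped Classical ComplexConjugate

namespace Pool.Agent.H20.EA

open AMc AMe

/-- subrepresentations do not change under inflation -/
def subSurj {G H : Type} [Group G] [Group H] (p : G →* H) (hp : Function.Surjective p) {n : ℕ}
    (ρ : Representation ℂ H (Fin n → ℂ)) :
    Subrepresentation ρ ≃o Subrepresentation (ρ.comp p) where
  toFun σ := ⟨σ.toSubmodule, fun h v hv => σ.apply_mem_toSubmodule (p h) hv⟩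
  invFun σ := ⟨σ.toSubmodule, fun g v hv => by
    obtain ⟨x, rfl⟩ := hp g
    exact σ.apply_mem_toSubmodule x hv⟩
  left_inv _ := rfl
  right_inv _ := rfl
  map_rel_iff' := Iff.rfl

/-- elements at which the character takes the value at `1` (all elements of a subgroup) act
trivially -/
theorem trivial_of_char {G : Type} [Group G] [Fintype G] {n : ℕ}
    (ρ : Representation ℂ G (Fin n → ℂ)) (K : Subgroup G)
    (hK : ∀ z ∈ K, ρ.character z = ρ.character 1) : ∀ z ∈ K, ρ z = 1 := by
  let σ : Representation ℂ K (Fin n → ℂ) := ρ.comp K.subtype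
  have hinv : Invertible (Fintype.card K : ℂ) :=
    invertibleOfNonzero (Nat.cast_ne_zero.2 Fintype.card_ne_zero)
  have h1 := Representation.isProj_averageMap σ
  have h2 := h1.trace
  have h3 : LinearMap.trace ℂ (Fin n → ℂ) (Representation.averageMap σ) = n := by
    have e : Representation.averageMap σ = ⅟(Fintype.card K : ℂ) • ∑ z : K, σ z := by
      unfold Representation.averageMap GroupAlgebra.average
      rw [map_smul, map_sum]
      congr 1
      refine Finset.sum_congr rfl fun z _ => ?_
      rw [Representation.asAlgebraHom_of]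
    rw [e, map_smul, map_sum]
    have h4 : ∀ z : K, LinearMap.trace ℂ (Fin n → ℂ) (σ z) = n := by
      intro z
      have h5 := hK z z.2
      have h6 : ρ.character 1 = n := by
        unfold Representation.character
        rw [map_one, LinearMap.trace_one]
        simp
      rw [h6] at h5
      exact h5
    rw [Finset.sum_congr rfl fun z _ => h4 z]
    rw [Finset.sum_const, Finset.card_univ, nsmul_eq_mul, smul_eq_mul, invOf_mul_cancel_left']
  rw [h3] at h2
  have h5 : Module.finrank ℂ (Representation.invariants σ) = n := by exact_mod_cast h2.symm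
  have h6 : Representation.invariants σ = ⊤ := by
    apply Submodule.eq_top_of_finrank_eq
    rw [h5]
    simp
  intro z hz
  apply LinearMap.ext
  intro v
  have h7 : v ∈ Representation.invariants σ := by rw [h6]; trivial
  exact (Representation.mem_invariants σ v).1 h7 ⟨z, hz⟩

/-- QI. -/
theorem qi : T_QI := by
  intro G H _ _ _ _ p hp
  have h2 : ∀ b ∈ Irr G, (∀ z, p z = 1 → b z = b 1) → ∃ a ∈ Irr H, b = fun g => a (p g) := by
    rintro b ⟨n, ρ, hρ, rfl⟩ hb
    have hker := trivial_of_char ρ p.ker (fun z hz => hb z hz)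
    have heq : ∀ g g', p g = p g' → ρ g = ρ g' := by
      intro g g' h
      have h1 : g'⁻¹ * g ∈ p.ker := by
        rw [MonoidHom.mem_ker, map_mul, map_inv, h, inv_mul_cancel]
      have h3 : g = g' * (g'⁻¹ * g) := by group
      rw [h3, map_mul, hker _ h1, mul_one]
    let s : H → G := Function.surjInv hp
    have hs : ∀ h, p (s h) = h := Function.surjInv_eq hp
    let ρ' : Representation ℂ H (Fin n → ℂ) :=
      { toFun := fun h => ρ (s h)
        map_one' := by
          rw [← map_one ρ]
          exact heq _ _ (by rw [hs, map_one])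
        map_mul' := fun x y => by
          rw [← map_mul]
          exact heq _ _ (by rw [hs, map_mul, hs, hs]) }
    have hcomp : ρ'.comp p = ρ := by
      ext1 g
      exact heq _ _ (hs _)
    refine ⟨ρ'.character, ⟨n, ρ', ?_, rfl⟩, ?_⟩
    · have h3 := OrderIso.isSimpleOrder_iff (subSurj p hp ρ')
      apply h3.2
      rw [hcomp]
      exact hρ
    · funext g
      show LinearMap.trace ℂ _ (ρ g) = LinearMap.trace ℂ _ (ρ' (p g))
      rw [← hcomp]
      rfl
  refine ⟨fun a => ⟨?_, fun h => ?_⟩, h2⟩
  · rintro ⟨n, ρ, hρ, rfl⟩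
    exact ⟨n, ρ.comp p, (OrderIso.isSimpleOrder_iff (subSurj p hp ρ)).1 hρ, rfl⟩
  · obtain ⟨a', ha', h3⟩ := h2 _ h (fun z hz => by rw [hz, map_one])
    have h4 : a = a' := by
      funext x
      obtain ⟨g, rfl⟩ := hp x
      exact congrFun h3 g
    rw [h4]
    exact ha'

end Pool.Agent.H20.EA
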