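import Pool.Agent.H77.EA.Targets3
import Pool.Agent.H77.EA.IN
import Pool.Agent.H68.EA.XD

/-!
# Equivariant Alperin–McKay (MP_657073_al): module XE
-/

open scoped Classical ComplexConjugate

namespace Pool.Agent.H20.EA

open AMc AMe Pool.Agent.H77.EA

section

variable {Γ : Type} [Group Γ] [Fintype Γ]

theorem xe_relIndex_pos (H L : Subgroup Γ) : 0 < H.relIndex L :=
  Nat.pos_of_ne_zero (Subgroup.index_ne_zero_of_finite (H := H.subgroupOf L))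

theorem xe_eq_of_over (h2 : T_S2) {N : Subgroup Γ} {χ θ : Γ → ℂ} (hχ : χ ∈ IrrS N)
    (hθ : θ ∈ IrrS N) (hO : Over χ θ) : χ = θ := by
  have h4 := h2 Γ N χ θ hχ hθ
  by_contra hne
  rw [if_neg hne] at h4
  exact hO h4

theorem xe_over_of_eq (h1 : T_S1) (h2 : T_S2) {K : Subgroup Γ} {χ θ : Γ → ℂ}
    (hθ : θ ∈ IrrS K) (h : ∀ k ∈ K, χ k = θ k) : Over χ θ := by
  have h3 : ∑ g, χ g * (starRingEnd ℂ) (θ g) = ∑ g, θ g * (starRingEnd ℂ) (θ g) := by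
    refine Finset.sum_congr rfl fun g _ => ?_
    by_cases hg : g ∈ K
    · rw [h g hg]
    · rw [(h1 Γ K θ hθ).1 g hg, map_zero, mul_zero, mul_zero]
  unfold Over
  rw [h3, h2 Γ K θ θ hθ hθ, if_pos rfl]
  exact Nat.cast_ne_zero.2 Nat.card_pos.ne'

end

/-- XE, first part -/
theorem xe1 (hXC : T_XC) (hXB : T_XB) (hB4 : T_B4) (h1 : T_S1) (h2 : T_S2) (h3 : T_S3)
    (h6 : T_S6) (h7 : T_S7) (hE1 : T_E1) {F : Type} [Field F] {π : integralClosure ℤ ℂ →+* F}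
    (hπ : Function.Surjective π) {ℓ : ℕ} [Fact ℓ.Prime] [CharP F ℓ]
    {Γ : Type} [Group Γ] [Fintype Γ] {K : Subgroup Γ} {θ : Γ → ℂ} :
    ∀ (m : ℕ) (X : Subgroup Γ), K.relIndex X = m → LP ℓ X K → Sta π X K θ →
    ∀ χ ∈ IrrS X, ∀ χ' ∈ IrrS X, ∀ θ₁ ∈ IrrS K, ∀ θ₂ ∈ IrrS K, Over χ θ₁ → Over χ' θ₂ →
    Blk π K θ θ₁ → Blk π K θ θ₂ → Blk π X χ χ' := by
  intro m
  induction m using Nat.strong_induction_on with
  | _ m ih =>
    intro X hm hLP hSta χ hχ χ' hχ' θ₁ hθ₁ θ₂ hθ₂ hO hO' hb hb'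
    rcases hXC ℓ Γ X K hLP with hKX | ⟨M, hXM, hMK, hidx, hidx2⟩
    · subst hKX
      rw [xe_eq_of_over h2 hχ hθ₁ hO, xe_eq_of_over h2 hχ' hθ₂ hO']
      exact blk_trans (blk_symm hb) hb'
    · obtain ⟨μ₀, hμ₀, hOμ₀⟩ := hE1 Γ M X hXM.le χ hχ
      obtain ⟨μ, hμ, hO1, hO2⟩ := Pool.Agent.H68.EA.XD.mid h1 h2 h3 h6 h7 hXM.le hMK.le hXM.nor
        hLP.nor hχ hθ₁ hμ₀ hO hOμ₀
      obtain ⟨μ₀', hμ₀', hOμ₀'⟩ := hE1 Γ M X hXM.le χ' hχ'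
      obtain ⟨μ', hμ', hO1', hO2'⟩ := Pool.Agent.H68.EA.XD.mid h1 h2 h3 h6 h7 hXM.le hMK.le
        hXM.nor hLP.nor hχ' hθ₂ hμ₀' hO' hOμ₀'
      have hlt : K.relIndex M < m := by
        have := xe_relIndex_pos K M
        have h2 : 2 ≤ ℓ := (Fact.out : ℓ.Prime).two_le
        rw [← hm, hidx2]
        nlinarith
      have hbM : Blk π M μ μ' := ih _ hlt M rfl hMK (fun x hx => hSta x (hXM.le hx)) μ hμ μ' hμ'
        θ₁ hθ₁ θ₂ hθ₂ hO2 hO2' hb hb'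
      refine (hXB F π hπ ℓ Γ X M hXM hidx).1 χ hχ χ' hχ' fun z hz => ?_
      rw [hB4 F π hπ Γ M X hXM.le hXM.nor χ hχ μ hμ hO1 z hz,
        hB4 F π hπ Γ M X hXM.le hXM.nor χ' hχ' μ' hμ' hO1' z hz]
      exact hbM z (ZA_mono le_rfl hXM.le hz)

/-- XE, second part -/
theorem xe2 (hXC : T_XC) (hXB : T_XB) (hB4 : T_B4) (h1 : T_S1) (h2 : T_S2) (h3 : T_S3)
    (h6 : T_S6) (h7 : T_S7) (hE1 : T_E1) {F : Type} [Field F] {π : integralClosure ℤ ℂ →+* F}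
    (hπ : Function.Surjective π) {ℓ : ℕ} [Fact ℓ.Prime] [CharP F ℓ]
    {Γ : Type} [Group Γ] [Fintype Γ] {K P : Subgroup Γ} {θ : Γ → ℂ} (hθ : θ ∈ IrrS K)
    (hP : DefH ℓ K (lam π θ) P) :
    ∀ (m : ℕ) (X : Subgroup Γ), K.relIndex X = m → LP ℓ X K → Sta π X K θ →
    ∀ χ ∈ IrrS X, Over χ θ →
    ∃ E : Subgroup Γ, DefH ℓ X (lam π χ) E ∧ E ⊓ K = P ∧ P.relIndex E = K.relIndex X := by
  intro m
  induction m using Nat.strong_induction_on with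
  | _ m ih =>
    intro X hm hLP hSta χ hχ hO
    rcases hXC ℓ Γ X K hLP with hKX | ⟨M, hXM, hMK, hidx, hidx2⟩
    · subst hKX
      rw [xe_eq_of_over h2 hχ hθ hO]
      exact ⟨P, hP, inf_eq_left.2 hP.2.1, by rw [Subgroup.relIndex_self, Subgroup.relIndex_self]⟩
    · obtain ⟨μ₀, hμ₀, hOμ₀⟩ := hE1 Γ M X hXM.le χ hχ
      obtain ⟨μ, hμ, hO1, hO2⟩ := Pool.Agent.H68.EA.XD.mid h1 h2 h3 h6 h7 hXM.le hMK.le hXM.nor
        hLP.nor hχ hθ hμ₀ hO hOμ₀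
      have hlt : K.relIndex M < m := by
        have := xe_relIndex_pos K M
        have h2 : 2 ≤ ℓ := (Fact.out : ℓ.Prime).two_le
        rw [← hm, hidx2]
        nlinarith
      have hStaM : Sta π M K θ := fun x hx => hSta x (hXM.le hx)
      obtain ⟨EM, hEM, hEK, hEi⟩ := ih _ hlt M rfl hMK hStaM μ hμ hO2
      have hnmK : ∀ x ∈ X, Nm x K := by
        intro x hx g
        constructor
        · intro h
          have h4 := hLP.nor x⁻¹ (X.inv_mem hx) _ h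
          have h5 : x⁻¹ * (x * g * x⁻¹) * x⁻¹⁻¹ = g := by group
          rwa [h5] at h4
        · exact hLP.nor x hx g
      have hnmM : ∀ x ∈ X, Nm x M := by
        intro x hx g
        constructor
        · intro h
          have h4 := hXM.nor x⁻¹ (X.inv_mem hx) _ h
          have h5 : x⁻¹ * (x * g * x⁻¹) * x⁻¹⁻¹ = g := by group
          rwa [h5] at h4
        · exact hXM.nor x hx g
      have hStaX : Sta π X M μ := fun x hx =>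
        xe1 hXC hXB hB4 h1 h2 h3 h6 h7 hE1 hπ _ M rfl hMK hStaM μ hμ (cj x μ)
          (cj_mem h7 (hnmM x hx) hμ) θ hθ (cj x θ) (cj_mem h7 (hnmK x hx) hθ) hO2
          (over_cj x hO2) (blk_refl K θ) (hSta x hx)
      obtain ⟨E, hE, hEM', hEi'⟩ := (hXB F π hπ ℓ Γ X M hXM hidx).2.2 χ hχ μ hμ hO1 hStaX EM hEM
      have hPE : P ≤ EM := by rw [← hEK]; exact inf_le_left
      have hEE : EM ≤ E := by rw [← hEM']; exact inf_le_left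
      refine ⟨E, hE, ?_, ?_⟩
      · rw [← hEK, ← hEM', inf_assoc, inf_eq_right.2 hMK.le]
      · rw [← Subgroup.relIndex_mul_relIndex P EM E hPE hEE, hEi, hEi', hidx2, mul_comm]

/-- XE. -/
theorem xe (hXC : T_XC) (hXB : T_XB) (hXD : T_XD) (hCV : AMe.T_CV) (hHT : T_HT) (hB4 : T_B4)
    (h1 : T_S1) (h2 : T_S2) (h3 : T_S3) (h6 : T_S6) (h7 : T_S7) (hE1 : T_E1) : T_XE := by
  intro F _ π hπ ℓ _ _ Γ _ _ X K P hLP θ hθ hP hSta
  have c1 := xe1 hXC hXB hB4 h1 h2 h3 h6 h7 hE1 hπ (θ := θ) _ X rfl hLP hSta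
  refine ⟨c1, xe2 hXC hXB hB4 h1 h2 h3 h6 h7 hE1 hπ hθ hP _ X rfl hLP hSta, ?_⟩
  intro χ hχ hO E hEX hPE hi χ'
  have hidx : E.relIndex X = P.relIndex K := by
    have h4 := Subgroup.relIndex_mul_relIndex P E X hPE hEX
    have h5 := Subgroup.relIndex_mul_relIndex P K X hP.2.1 hLP.le
    rw [← h5, hi, mul_comm] at h4
    exact Nat.eq_of_mul_eq_mul_right (xe_relIndex_pos K X) h4
  constructor
  · rintro ⟨hχ', hlam, d, hd, hv⟩
    obtain ⟨θ', hθ', hO'⟩ := hE1 Γ K X hLP.le χ' hχ'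
    have hb : Blk π K θ θ' := by
      refine hCV F π hπ ℓ Γ X K hLP.le hLP.nor θ hθ θ' hθ' hSta fun z hz => ?_
      rw [← hB4 F π hπ Γ K X hLP.le hLP.nor χ' hχ' θ' hθ' hO' z hz,
        ← hB4 F π hπ Γ K X hLP.le hLP.nor χ hχ θ hθ hO z hz]
      exact hlam z (ZA_mono hLP.le le_rfl hz)
    obtain ⟨b, hb1, hb2⟩ := hXD F π hπ ℓ Γ X K hLP χ' hχ' θ' hθ' hO'
    obtain ⟨d', hd'0, hd'⟩ := (h1 Γ K θ' hθ').2.2.1
    have hht := hHT F π hπ ℓ Γ K P θ hθ hP θ' hθ' hb d' hd'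
    have hdd : d = ℓ ^ b * d' := by
      rw [hd, hd'] at hb1
      exact_mod_cast hb1
    have hℓ0 : ℓ ≠ 0 := (Fact.out : ℓ.Prime).ne_zero
    have hvd : padicValNat ℓ d = b + padicValNat ℓ d' := by
      rw [hdd, padicValNat.mul (pow_ne_zero _ hℓ0) hd'0.ne', padicValNat.prime_pow]
    rw [hv, hidx] at hvd
    have hb0 : b = 0 := by omega
    refine ⟨hχ', θ', ⟨hθ', hb, d', hd', by omega⟩, hb2 hb0⟩
  · rintro ⟨hχ', θ', ⟨hθ', hb, d', hd', hv⟩, hk⟩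
    refine ⟨hχ', c1 χ hχ χ' hχ' θ hθ θ' hθ' hO (xe_over_of_eq h1 h2 hθ' hk) (blk_refl K θ) hb,
      d', ?_, ?_⟩
    · rw [hk 1 K.one_mem, hd']
    · rw [hv, hidx]

end Pool.Agent.H20.EA
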