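import Pool.Agent.H77.EA.Targets
import Pool.Agent.H3.AM.Basic

/-!
# Equivariant Alperin–McKay (MP_657073_al): modules CV, UN and CB
-/

open scoped Classical ComplexConjugate

namespace Pool.Agent.H20.EA

open AMc AMe

/-- CV. -/
theorem cv (hB1 : T_B1) (hB5 : T_B5) (hG1 : T_G1) : AMe.T_CV := by
  intro F _ π hπ ℓ _ _ Γ _ _ X K hKX hn θ hθ θ' hθ' hSta hz z hzK
  have hker : (1 : Γ →* Unit).ker = ⊤ := by
    ext g
    simp
  obtain ⟨u, hu, μ, hμ⟩ := hG1 F π hπ ℓ Γ Unit 1 K X hKX hn (lam π θ') (lam π θ)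
    (hB1 F π hπ Γ K θ' hθ') (hB1 F π hπ Γ K θ hθ) (by
      rw [hker, inf_top_eq]
      exact hz)
  rw [hμ z hzK, twA_of_ker π 1 μ (by rw [hker]; exact le_top) hzK]
  have h1 := hSta u⁻¹ (X.inv_mem hu) z hzK
  rw [hB5, inv_inv] at h1
  exact h1

/-- UN. -/
theorem un (hB1 : T_B1) (hG1 : T_G1) : T_UN := by
  intro F _ π hπ ℓ _ _ Γ _ _ Q _ _ s X K t hPI χ hχ χ' hχ' hz z hzX
  obtain ⟨u, hu, μ, hμ⟩ := hG1 F π hπ ℓ Γ Q s X X le_rfl (nor_self X) (lam π χ') (lam π χ)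
    (hB1 F π hπ Γ X χ' hχ') (hB1 F π hπ Γ X χ hχ) (by
      rw [← hPI.eq]
      exact hz)
  have htw : twA π s μ z = z := by
    apply MonoidAlgebra.ext
    ext g
    rw [coeff_twA]
    by_cases hg : g ∈ X
    · obtain ⟨c, hc⟩ := hPI.gen g hg
      have h1 : (μ (s g) : ℂ) ^ ℓ = 1 := by
        rw [← Units.val_pow_eq_pow_val, ← map_pow, hc, ← pow_mul, mul_comm, pow_mul]
        have h2 : s t ^ ℓ = 1 := by
          have := pow_orderOf_eq_one (s t)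
          rwa [hPI.ord] at this
        rw [h2, one_pow, map_one, Units.val_one]
      have h2 : rd π (μ (s g) : ℂ) ^ ℓ = 1 := by
        rw [← rd_pow π (mu_integral μ _), h1, rd_one]
      have h3 : (rd π (μ (s g) : ℂ) - 1) ^ ℓ = 0 := by
        rw [sub_pow_char, h2, one_pow, sub_self]
      have h4 : rd π (μ (s g) : ℂ) = 1 := by
        have := pow_eq_zero_iff (Fact.out : ℓ.Prime).ne_zero |>.1 h3
        exact sub_eq_zero.1 this
      rw [h4, one_mul]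
    · rw [hzX.1 g hg, mul_zero]
  rw [hμ z hzX, htw, cjA_of_mem hzX hu]

variable {Γ : Type} [Group Γ] [Fintype Γ] {F : Type} [Field F]

theorem defH_congr {ℓ : ℕ} {N : Subgroup Γ} {h k : MonoidAlgebra F Γ → F} {D : Subgroup Γ}
    (hk : ∀ z ∈ ZA F N N, k z = h z) (hD : DefH ℓ N h D) : DefH ℓ N k D := by
  obtain ⟨h1, h2, ⟨x, hx, hx0, h3, h4⟩, h5⟩ := hD
  refine ⟨h1, h2, ⟨x, hx, ?_, h3, h4⟩, fun y hy hy0 => h5 y hy ?_⟩
  · rw [hk _ (csum_cls_mem_self hx)]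
    exact hx0
  · rw [← hk _ (csum_cls_mem_self hy)]
    exact hy0

/-- CB. -/
theorem cb (hP0 : T_P0) (hCL : T_CL) (hCV : AMe.T_CV) (hDX : T_DX) (hS1 : T_S1) (hS7 : T_S7)
    (hE1 : T_E1) (hB4 : T_B4) (hB5 : T_B5) : AMe.T_CB := by
  intro F _ π hπ ℓ _ _ q hq hqℓ Γ _ _ Q _ _ s X K t hPI P θ hθ hP hSta
  obtain ⟨hKX, hn, hidx, -, -, -⟩ := hP0 q hq Γ Q s X K t hPI
  obtain ⟨hcl1, hcl2, -, -⟩ := hCL q hq Γ Q s X K t hPI
  have hPK : P ≤ K := hP.2.1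
  have hcjm : ∀ x ∈ X, ∀ z ∈ ZA F K K, cjA x⁻¹ z ∈ ZA F K K := fun x hx z hz =>
    cjA_mem (nor_iff hn (X.inv_mem hx)) (fun g hg => hn _ (X.inv_mem hx) g hg) hz
  have hB : ∀ θ' : Γ → ℂ, Blk π K θ θ' → ∀ x ∈ X, Blk π K θ (cj x θ') := by
    intro θ' hb x hx z hz
    rw [hB5, hb _ (hcjm x hx z hz), ← hB5]
    exact hSta x hx z hz
  refine ⟨?_, ?_⟩
  · rintro x hx θ' ⟨h1, h2, d, h3, h4⟩
    refine ⟨hS7 Γ K K x (fun g => (nor_iff hn hx g).symm) θ' h1, hB θ' h2 x hx, d, ?_, h4⟩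
    show θ' (x * 1 * x⁻¹) = d
    rw [mul_one, mul_inv_cancel]
    exact h3
  · intro χ hχ θ₁ hθ₁ hov hb
    have hSta₁ : Sta π X K θ₁ := by
      intro x hx z hz
      rw [hB θ₁ hb x hx z hz, hb z hz]
    have hdef : DefH ℓ K (lam π θ₁) P := defH_congr hb hP
    refine ⟨((hDX F π hπ ℓ q hq Γ Q s X K t hPI χ hχ θ₁ hθ₁ hov hSta₁ P hdef).1 hqℓ), ?_⟩
    -- degrees
    have hdeg : ∀ χ' ∈ IrrS X, ∀ θ' ∈ IrrS K, Over χ' θ' → ∃ d d' : ℕ, χ' 1 = d ∧ θ' 1 = d' ∧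
        padicValNat ℓ d = padicValNat ℓ d' := by
      intro χ' hχ' θ' hθ' ho
      obtain ⟨-, -, ⟨d', hd'0, hd'⟩, -⟩ := hS1 Γ K θ' hθ'
      by_cases hst : cj t θ' = θ'
      · obtain ⟨-, -, hres⟩ := hcl1 θ' hθ' hst
        refine ⟨d', d', ?_, hd', rfl⟩
        rw [(hres χ' hχ' ho).1 1 K.one_mem, hd']
      · obtain ⟨χ₂, hχ₂, -, hd2, huniq, -⟩ := hcl2 θ' hθ' hst
        refine ⟨q * d', d', ?_, hd', ?_⟩
        · rw [huniq χ' hχ' ho, hd2, hd']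
          push_cast
          ring
        · have hℓq : ¬ ℓ ∣ q := by
            intro h
            exact hqℓ ((Nat.prime_dvd_prime_iff_eq Fact.out hq).1 h).symm
          rw [padicValNat.mul hq.ne_zero hd'0.ne', padicValNat.eq_zero_of_not_dvd hℓq, zero_add]
    have hrel : padicValNat ℓ (P.relIndex X) = padicValNat ℓ (P.relIndex K) := by
      have h1 := Subgroup.relIndex_mul_relIndex P K X hPK hKX
      have hℓq : ¬ ℓ ∣ q := by
        intro h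
        exact hqℓ ((Nat.prime_dvd_prime_iff_eq Fact.out hq).1 h).symm
      have h2 : P.relIndex K ≠ 0 := Subgroup.index_ne_zero_of_finite
      rw [← h1, hidx, padicValNat.mul h2 hq.ne_zero,
        padicValNat.eq_zero_of_not_dvd hℓq, add_zero]
    intro χ'
    constructor
    · rintro ⟨h1, h2, d, h3, h4⟩
      obtain ⟨θ', hθ', ho⟩ := hE1 Γ K X hKX χ' h1
      have hb' : Blk π K θ θ' := by
        refine hCV F π hπ ℓ Γ X K hKX hn θ hθ θ' hθ' hSta fun z hz => ?_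
        rw [← hB4 F π hπ Γ K X hKX hn χ' h1 θ' hθ' ho z hz, h2 z (ZA_mono hKX le_rfl hz),
          hB4 F π hπ Γ K X hKX hn χ hχ θ₁ hθ₁ hov z hz, hb z (ZA_mono le_rfl hKX hz)]
      obtain ⟨d1, d', h5, h6, h7⟩ := hdeg χ' h1 θ' hθ' ho
      have h8 : d1 = d := by
        have : (d1 : ℂ) = d := by rw [← h5, h3]
        exact_mod_cast this
      refine ⟨⟨h1, θ', ⟨hθ', hb', d', h6, ?_⟩, ho⟩, h2⟩
      rw [← h7, h8, h4, hrel]
    · rintro ⟨⟨h1, θ', ⟨hθ', hb', d, h3, h4⟩, ho⟩, h2⟩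
      obtain ⟨d1, d', h5, h6, h7⟩ := hdeg χ' h1 θ' hθ' ho
      have h8 : d' = d := by
        have : (d' : ℂ) = d := by rw [← h6, h3]
        exact_mod_cast this
      refine ⟨h1, h2, d1, h5, ?_⟩
      rw [h7, h8, h4, hrel]

end Pool.Agent.H20.EA
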