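import Pool.Agent.H77.EA.Targets2

/-!
# Equivariant Alperin–McKay (MP_657073_al): module GC
-/

open scoped Classical ComplexConjugate

namespace Pool.Agent.H20.EA

open AMc AMe Pool.Agent.H77.EA

/-- a power whose exponent is `1` modulo the order of the group -/
theorem pow_of_modEq {N : Type} [Group N] [Fintype N] {m : ℕ} (h : m ≡ 1 [MOD Nat.card N])
    (g : N) : g ^ m = g := by
  have h1 : m ≡ 1 [MOD orderOf g] := h.of_dvd (orderOf_dvd_natCard g)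
  have h2 := pow_eq_pow_iff_modEq.2 h1
  rwa [pow_one] at h2

theorem gc_map (hGA : T_GA) (hGB : T_GB) {ℓ : ℕ} [Fact ℓ.Prime]
    {𝔪 : Ideal (integralClosure ℤ ℂ)} (h𝔪 : 𝔪.IsMaximal) (hℓ : (ℓ : integralClosure ℤ ℂ) ∈ 𝔪)
    {N : Type} [Group N] [Fintype N] {D : Subgroup N} {χ : N → ℂ} {τ : MulAut N}
    {Z : Subgroup N} {ν ν' : N → ℂ} {m : ℕ} (hm : (Nat.card N).Coprime m)
    (hr : ∀ g : N, ¬ ℓ ∣ orderOf g → g ^ m = g) (hν : ∀ z ∈ Z, ν (z ^ m) = ν' z) {a : N → ℂ}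
    (ha : a ∈ FixC ℓ 𝔪 χ D τ Z ν) : (fun g => a (g ^ m)) ∈ FixC ℓ 𝔪 χ D τ Z ν' := by
  obtain ⟨⟨h1, h2, d, h3, h4⟩, h5, h6⟩ := ha
  refine ⟨⟨hGA N a h1 m hm, same_trans h2 ((hGB ℓ 𝔪 h𝔪 hℓ N).2 a h1 m hm hr), d, ?_, h4⟩,
    fun g => ?_, fun z hz => ?_⟩
  · show a (1 ^ m) = d
    rw [one_pow]
    exact h3
  · show a ((τ g) ^ m) = a (g ^ m)
    rw [← map_pow]
    exact h5 _
  · show a (z ^ m) = ν' z * a (1 ^ m)
    rw [one_pow, h6 _ (Z.pow_mem hz m), hν z hz]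

/-- GC. -/
theorem gc (hGA : T_GA) (hGB : T_GB) : AMe.T_GC := by
  intro ℓ _ 𝔪 h𝔪 hℓ N _ _ D χ _ τ Z ν hν1 hνm m hm hr
  have hνp : ∀ z ∈ Z, ∀ k : ℕ, ν (z ^ k) = ν z ^ k := by
    intro z hz k
    induction k with
    | zero => simp [hν1]
    | succ k ih => rw [pow_succ, hνm _ (Z.pow_mem hz k) _ hz, ih, pow_succ]
  obtain ⟨m', hmm, hm'⟩ : ∃ m' : ℕ, m * m' ≡ 1 [MOD Nat.card N] ∧ (Nat.card N).Coprime m' := by
    refine ⟨m ^ (Nat.totient (Nat.card N) - 1), ?_, hm.pow_right _⟩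
    have h1 : 0 < Nat.totient (Nat.card N) := Nat.totient_pos.2 Nat.card_pos
    have h2 : m * m ^ (Nat.totient (Nat.card N) - 1) = m ^ Nat.totient (Nat.card N) := by
      rw [← pow_succ']
      congr 1
      omega
    rw [h2]
    exact Nat.ModEq.pow_totient hm.symm
  have hg : ∀ g : N, (g ^ m) ^ m' = g := fun g => by rw [← pow_mul]; exact pow_of_modEq hmm g
  have hg' : ∀ g : N, (g ^ m') ^ m = g := fun g => by
    rw [← pow_mul, mul_comm]; exact pow_of_modEq hmm g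
  have hr' : ∀ g : N, ¬ ℓ ∣ orderOf g → g ^ m' = g := by
    intro g h
    have := hg g
    rwa [hr g h] at this
  symm
  refine Set.ncard_congr (fun a _ g => a (g ^ m)) ?_ ?_ ?_
  · intro a ha
    exact gc_map hGA hGB h𝔪 hℓ hm hr (fun z hz => hνp z hz m) ha
  · intro a b _ _ hab
    funext g
    have := congrFun hab (g ^ m')
    simp only [hg'] at this
    exact this
  · intro b hb
    refine ⟨fun g => b (g ^ m'), ?_, ?_⟩
    · refine gc_map hGA hGB h𝔪 hℓ hm' hr' (fun z hz => ?_) hb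
      show ν (z ^ m') ^ m = ν z
      rw [← hνp _ (Z.pow_mem hz m'), hg']
    · funext g
      show b ((g ^ m) ^ m') = b g
      rw [hg]

end Pool.Agent.H20.EA
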