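import Pool.Agent.H77.EA.Targets2
import Pool.Agent.H3.AM.Basic

/-!
# Equivariant Alperin–McKay (MP_657073_al): module ZP
-/

open scoped Classical ComplexConjugate

namespace Pool.Agent.H20.EA

open AMc AMe Pool.Agent.H77.EA

theorem exists_field (ℓ : ℕ) [Fact ℓ.Prime] (𝔪 : Ideal (integralClosure ℤ ℂ))
    (h𝔪 : 𝔪.IsMaximal) (hℓ : (ℓ : integralClosure ℤ ℂ) ∈ 𝔪) :
    ∃ (F : Type) (_ : Field F) (π : integralClosure ℤ ℂ →+* F),
      Function.Surjective π ∧ RingHom.ker π = 𝔪 ∧ CharP F ℓ := by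
  refine ⟨integralClosure ℤ ℂ ⧸ 𝔪, Ideal.Quotient.field 𝔪, Ideal.Quotient.mk 𝔪,
    Ideal.Quotient.mk_surjective, Ideal.mk_ker, ?_⟩
  let _ := Ideal.Quotient.field 𝔪
  rw [CharP.charP_iff_prime_eq_zero Fact.out]
  have : Ideal.Quotient.mk 𝔪 (ℓ : integralClosure ℤ ℂ) = 0 := Ideal.Quotient.eq_zero_iff_mem.2 hℓ
  rw [map_natCast] at this
  exact this

/-- the value of `cen` at a central element -/
theorem cen_central {N G : Type} [Group N] [Fintype N] [Group G] (j : N →* G)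
    (hj : Function.Injective j) (ψ : N → ℂ) (z : N) (hz : j z ∈ Subgroup.center G) :
    cen j ψ (j z) = ψ z / ψ 1 := by
  unfold cen
  congr 1
  rw [Finset.sum_eq_single z]
  · rw [if_pos (IsConj.refl _)]
  · intro y _ hy
    rw [if_neg]
    intro h
    obtain ⟨c, hc⟩ := isConj_iff.1 h
    apply hy
    apply hj
    rw [← hc, Subgroup.mem_center_iff.1 hz c, mul_inv_cancel_right]
  · intro h
    exact absurd (Finset.mem_univ z) h

/-- ZP. -/
theorem zp (hZH : T_ZH) (hB0 : T_B0) : T_ZP := by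
  intro ℓ _ 𝔪 h𝔪 hℓ G _ _ D χ ψ hB z hz hord a ha b hb
  obtain ⟨F, _, π, hπ, rfl, _⟩ := exists_field ℓ 𝔪 h𝔪 hℓ
  have hzN : z ∈ Subgroup.center (Subgroup.normalizer (D : Set G)) := by
    rw [Subgroup.mem_center_iff] at hz ⊢
    intro g
    exact Subtype.ext (hz g)
  have hordN : orderOf z = orderOf (z : G) := (Subgroup.orderOf_coe z).symm
  have e1 : cen (MonoidHom.id G) a (z : G) = a z / a 1 :=
    cen_central (MonoidHom.id G) Function.injective_id a (z : G) hz
  have e2 : cen (Subgroup.normalizer (D : Set G)).subtype ψ (z : G) = ψ z / ψ 1 :=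
    cen_central (Subgroup.normalizer (D : Set G)).subtype
      (Subgroup.subtype_injective _) ψ z hz
  have e3 : ∀ φ : Subgroup.normalizer (D : Set G) → ℂ, cen (MonoidHom.id _) φ z = φ z / φ 1 :=
    fun φ => cen_central (MonoidHom.id _) Function.injective_id φ z hzN
  have h1 : Cong (RingHom.ker π) (a z / a 1) (cen (MonoidHom.id G) χ (z : G)) := by
    rw [← e1]
    exact cong_symm (ha.2.1 z)
  have h2 : Cong (RingHom.ker π) (cen (MonoidHom.id G) χ (z : G)) (ψ z / ψ 1) := by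
    rw [← e2]
    exact hB.2.2.2.2 z
  have h3 : Cong (RingHom.ker π) (ψ z / ψ 1) (b z / b 1) := by
    have := hb.2.1 z
    rwa [e3, e3] at this
  have h4 := cong_trans h1 (cong_trans h2 h3)
  have u1 : (a z / a 1) ^ orderOf (z : G) = 1 := (hZH G a ha.1 z hz).2
  have v1 : (b z / b 1) ^ orderOf (z : G) = 1 := by
    rw [← hordN]
    exact (hZH _ b hb.1 z hzN).2
  have hn : 0 < orderOf (z : G) := orderOf_pos _
  obtain ⟨u, hu⟩ : ∃ u : ℂ, u = a z / a 1 := ⟨_, rfl⟩
  obtain ⟨v, hv⟩ : ∃ v : ℂ, v = b z / b 1 := ⟨_, rfl⟩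
  rw [← hu] at h4 u1
  rw [← hv] at h4 v1
  have hu0 : u ≠ 0 := by
    rintro rfl
    rw [zero_pow hn.ne'] at u1
    exact zero_ne_one u1
  have hv0 : v ≠ 0 := by
    rintro rfl
    rw [zero_pow hn.ne'] at v1
    exact zero_ne_one v1
  have hui := isIntegral_of_pow_eq_one hn u1
  have hvi := isIntegral_of_pow_eq_one hn v1
  have hζ : (u / v) ^ orderOf (z : G) = 1 := by rw [div_pow, u1, v1, div_one]
  have hζi := isIntegral_of_pow_eq_one hn hζ
  have h5 := (cong_iff π hui hvi).1 h4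
  have h6 : rd π (u / v) * rd π v = rd π v := by
    rw [← rd_mul π hζi hvi, div_mul_cancel₀ _ hv0, h5]
  have h7 : rd π v ≠ 0 := rd_ne_zero_of_pow_eq_one π hn v1
  have h8 : rd π (u / v) = 1 := by
    have := mul_right_cancel₀ h7 (h6.trans (one_mul _).symm)
    exact this
  have h9 := (hB0 F π hπ).2 ℓ (u / v) (orderOf (z : G)) hord hζ h8
  have h10 : u = v := by
    rw [div_eq_one_iff_eq hv0] at h9
    exact h9
  have ha1 : a 1 ≠ 0 := by
    intro h
    rw [hu, h, div_zero] at hu0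
    exact hu0 rfl
  have hb1 : b 1 ≠ 0 := by
    intro h
    rw [hv, h, div_zero] at hv0
    exact hv0 rfl
  rw [hu, hv, div_eq_div_iff ha1 hb1] at h10
  exact h10.symm

end Pool.Agent.H20.EA
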